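import Pool.Agent.U672.SF.Defs

/-!
# Motives built from given ones without tensor products: definitions
-/

set_option autoImplicit false

open CategoryTheory MonoidalCategory AlgebraicGeometry MvPolynomial Pool.Agent.TH137.DG
  Pool.Agent.Y116.UV Pool.Agent.Z125.UN Pool.Agent.U672.ST Pool.Agent.U672.MW
  Pool.Agent.U672.SF

namespace Pool.Agent.U672.AJ

universe v u

/-- The smallest class of separated schemes of finite type over `k` which contains the closed subschemes of
affine spaces defined by a system of excess at most `N`, all schemes of dimension at most `N` and the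
schemes in the class `Y`, which contains with two of the schemes `X`, `Z` (a closed subscheme of `X`), `U`
(its complement) also the third, and with `Spec B` also `Spec A` if the `A`-algebra `B` is free of finite
positive rank. -/
inductive Pasted {k : Type} [Field k] (N : ℕ) (Y : Sch k → Prop) : Sch k → Prop
  | system (σ : Type) [Finite σ] (q : ℕ) (G : Fin q → MvPolynomial σ k) : excessOf G ≤ N →
      Pasted N Y (zeros G)
  | small (X : Sch k) : FT True X → topologicalKrullDim X.left ≤ N → Pasted N Y X
  | given (X : Sch k) : Y X → Pasted N Y X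
  | iso (X X' : Sch k) : FT True X → Nonempty (X ≅ X') → Pasted N Y X → Pasted N Y X'
  | total {Z X U : Sch k} (i : Z ⟶ X) (j : U ⟶ X) : FT True X → IsTriple i j →
      Pasted N Y Z → Pasted N Y U → Pasted N Y X
  | opened {Z X U : Sch k} (i : Z ⟶ X) (j : U ⟶ X) : FT True X → IsTriple i j →
      Pasted N Y Z → Pasted N Y X → Pasted N Y U
  | closed {Z X U : Sch k} (i : Z ⟶ X) (j : U ⟶ X) : FT True X → IsTriple i j →
      Pasted N Y X → Pasted N Y U → Pasted N Y Z
  | covering (A B : Type) [CommRing A] [CommRing B] [Algebra k A] [Algebra k B] [Algebra A B]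
      [IsScalarTower k A B] [Algebra.FiniteType k A] (d : ℕ) :
      Nonempty (Module.Basis (Fin (d + 1)) A B) → Pasted N Y (aff k B) → Pasted N Y (aff k A)

variable {k : Type} [Field k] {C : Type u} [Category.{v} C] [MonoidalCategory C]
  [SymmetricCategory C] [Preadditive C] [Linear ℚ C] [Limits.HasZeroObject C] [HasShift C ℤ]
  [∀ n : ℤ, (shiftFunctor C n).Additive] [Pretriangulated C]

/-- The thick triangulated subcategory generated by the Tate twists of the objects in the class `G`: the
smallest class of objects which contains `G`, with an object its shifts, its direct factors, its Tate twists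
`L ⊗ A` and the objects whose Tate twist it is, and with two objects of a distinguished triangle also the
third one. -/
inductive Th (D : Motives k C) (G : C → Prop) : C → Prop
  | gen (A : C) : G A → Th D G A
  | cone (T : Pretriangulated.Triangle C) : T ∈ Pretriangulated.distinguishedTriangles →
      Th D G T.obj₁ → Th D G T.obj₂ → Th D G T.obj₃
  | shift (A : C) (n : ℤ) : Th D G A → Th D G (A⟦n⟧)
  | factor (A B : C) (s : A ⟶ B) (r : B ⟶ A) : s ≫ r = 𝟙 A → Th D G B → Th D G A
  | twist (A : C) : Th D G A → Th D G (D.L ⊗ A)
  | untwist (A : C) : Th D G (D.L ⊗ A) → Th D G A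

/-- The smallest class of objects which contains the motives of the schemes in the class `Y`, the direct
factors of the sum of two members, and with one of the objects `A` and `L ⊗ A` also the other. If the
schemes in `Y` are smooth and proper, these are the direct factors of sums of Tate twists of their Chow
motives. -/
inductive Summand (D : Motives k C) (Y : Sch k → Prop) : C → Prop
  | gen (X : Sch k) : Y X → Summand D Y (D.M X)
  | factor (A B S : C) (i₁ : A ⟶ S) (i₂ : B ⟶ S) (p₁ : S ⟶ A) (p₂ : S ⟶ B) :
      p₁ ≫ i₁ + p₂ ≫ i₂ = 𝟙 S → Summand D Y A → Summand D Y B → Summand D Y S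
  | twist (A : C) : Summand D Y A → Summand D Y (D.L ⊗ A)
  | untwist (A : C) : Summand D Y (D.L ⊗ A) → Summand D Y A

/-- Standard properties of the triangulated category of geometric motives with rational coefficients over a
perfect field `k`, and of the motives `M X` and the motives with compact support `Mc X` of the
separated schemes of finite type over `k`.

* `iso`: isomorphic schemes have isomorphic motives with compact support;
* `localization`: the triangle `Mc Z → Mc X → Mc U → Mc Z[1]` for a closed subscheme `Z` of `X` and
  its complement `U` (Voevodsky, Kelly);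
* `bundle`: for the affine bundle `Spec A[w_1, …, w_m] / (∑ f_l w_l - 1) → U` with fibre `𝔸^(m-1)`,
  where `U` is the complement of `f = 0` in `Spec A`, the motive with compact support of the total
  space is the one of `U` twisted by `(m-1)[2m-2]`;
* `torus`: `Mc X (1)[2]` is a direct factor of `Mc (X × 𝔾_m)`;
* `transfer`: if `B` is a free `A`-module of finite rank `d + 1`, then `Mc (Spec A)` is a direct summand
  of `Mc (Spec B)`;
* `proper`: `M X = Mc X` for proper `X`;
* `chow`: let `Y` be a class of smooth proper schemes which contains all those of dimension at most `N`.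
  If the motive of a smooth proper scheme `X` is in the thick triangulated subcategory generated by the
  Tate twists of the motives with compact support of the schemes of dimension at most `N` and of the
  motives of the schemes in `Y`, then it is a direct factor of a sum of Tate twists of motives of
  schemes in `Y` (alterations of de Jong, and the weight structure of Bondarko whose heart are the
  Chow motives). -/
structure PasteFacts (D : Motives k C) : Prop where
  iso : ∀ {X Y : Sch k}, FT True X → Nonempty (X ≅ Y) → Nonempty (D.Mc X ≅ D.Mc Y)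
  localization : ∀ {Z X U : Sch k} (i : Z ⟶ X) (j : U ⟶ X), FT True X → IsTriple i j →
    ∃ (a : D.Mc Z ⟶ D.Mc X) (b : D.Mc X ⟶ D.Mc U) (d : D.Mc U ⟶ (D.Mc Z)⟦(1 : ℤ)⟧),
      Pretriangulated.Triangle.mk a b d ∈ Pretriangulated.distinguishedTriangles (C := C)
  bundle : ∀ (A : Type) [CommRing A] [Algebra k A] [Algebra.FiniteType k A] (m : ℕ)
    (f : Fin m → A) (U : Sch k) (j : U ⟶ aff k A), IsOpenImmersion j.left →
    Set.range j.left = {x : PrimeSpectrum A | ∃ l, f l ∉ x.asIdeal} →
    Nonempty (D.Mc (aff k (Jou f)) ≅ tw D.L (m - 1) (D.Mc U))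
  torus : ∀ (A : Type) [CommRing A] [Algebra k A] [Algebra.FiniteType k A],
    ∃ (s : D.L ⊗ D.Mc (aff k A) ⟶ D.Mc (aff k (LaurentPolynomial A)))
      (r : D.Mc (aff k (LaurentPolynomial A)) ⟶ D.L ⊗ D.Mc (aff k A)), s ≫ r = 𝟙 _
  transfer : ∀ (A B : Type) [CommRing A] [CommRing B] [Algebra k A] [Algebra k B] [Algebra A B]
    [IsScalarTower k A B] [Algebra.FiniteType k A] (d : ℕ),
    Nonempty (Module.Basis (Fin (d + 1)) A B) →
      ∃ (s : D.Mc (aff k A) ⟶ D.Mc (aff k B)) (r : D.Mc (aff k B) ⟶ D.Mc (aff k A)), s ≫ r = 𝟙 _
  proper : ∀ X : Sch k, FT True X → IsProper X.hom → Nonempty (D.M X ≅ D.Mc X)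
  chow : ∀ (N : ℕ) (Y : Sch k → Prop), (∀ X, Y X → SmoothProper X) →
    (∀ X, SmoothProper X → topologicalKrullDim X.left ≤ N → Y X) →
    ∀ X, SmoothProper X → Th D (Generators D N Y) (D.M X) → Summand D Y (D.M X)

end Pool.Agent.U672.AJ
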