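import Pool.Agent.U672.AJ.Defs
import Pool.Agent.U672.SF.Main

/-!
# Motives built from given ones without tensor products
-/

set_option autoImplicit false
set_option linter.unusedSectionVars false

open CategoryTheory MonoidalCategory AlgebraicGeometry MvPolynomial Pool.Agent.TH137.DG
  Pool.Agent.Y116.UV Pool.Agent.Z125.UN Pool.Agent.U672.ST Pool.Agent.U672.TC Pool.Agent.U672.SF
  Pool.Agent.U672.MW Pool.Agent.U738.BN Pretriangulated

namespace Pool.Agent.U672.AJ

universe v u

section systems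

variable {k : Type} [Field k] {P : Sch k → Prop} {N : ℕ}

/-- systems of small excess -/
theorem few_zeros (hP : Bnd True P) (hN : PosN True P N) {σ : Type} [Finite σ] {q : ℕ}
    (G : Fin q → MvPolynomial σ k) (he : excessOf G ≤ N) : P (zeros G) := by
  classical
  have := Fintype.ofFinite σ
  refine iso_alg hP.toUni (oneE G).symm (tori_P hP _ fun Z => ?_)
  exact few_T hP hN _ ((excess_rs Z G).trans he)

end systems

variable {k : Type} [Field k] {C : Type u} [Category.{v} C] [MonoidalCategory C]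
  [SymmetricCategory C] [Preadditive C] [Linear ℚ C] [Limits.HasZeroObject C] [HasShift C ℤ]
  [∀ n : ℤ, (shiftFunctor C n).Additive] [Pretriangulated C] {D : Motives k C} {N : ℕ}
  {Y : Sch k → Prop} {G : C → Prop}

lemma Th.iso {A B : C} (e : Nonempty (A ≅ B)) (h : Th D G A) : Th D G B := by
  obtain ⟨e⟩ := e
  exact Th.factor B A e.inv e.hom e.inv_hom_id h

lemma Th.iso_iff {A B : C} (e : Nonempty (A ≅ B)) : Th D G A ↔ Th D G B :=
  ⟨Th.iso e, Th.iso (e.map Iso.symm)⟩

lemma Th.unshift (A : C) (h : Th D G (A⟦(1 : ℤ)⟧)) : Th D G A :=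
  Th.iso ⟨shiftShiftNeg A (1 : ℤ)⟩ (Th.shift _ (-1) h)

lemma Th.tw_iff (A : C) : ∀ n, Th D G (tw D.L n A) ↔ Th D G A
  | 0 => Iff.rfl
  | n + 1 => (⟨Th.untwist _, Th.twist _⟩ : _ ↔ _).trans (Th.tw_iff A n)

lemma gen_dim (X : Sch k) (hX : FT True X) (hd : topologicalKrullDim X.left ≤ N) :
    Th D (Generators D N Y) (D.Mc X) :=
  Th.gen _ ⟨X, Or.inl ⟨hX, hd⟩, rfl⟩

lemma gen_aff (A : Type) [CommRing A] [Algebra k A] [Algebra.FiniteType k A]
    (hA : ringKrullDim A ≤ N) : Th D (Generators D N Y) (D.Mc (aff k A)) :=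
  gen_dim _ (ft_aff True) (by rw [topDim_aff]; exact hA)

variable (hD : PasteFacts D)

include hD

theorem bnd_s : Bnd True fun X : Sch k => Th D (Generators D N Y) (D.Mc X) where
  iso h e := Th.iso (hD.iso h e)
  total i j h ht hZ hU := by
    obtain ⟨a, b, d, hT⟩ := hD.localization i j h ht
    exact Th.cone _ (inv_rot_of_distTriang _ hT) (Th.shift _ (-1) hU) hZ
  opened i j h ht hZ hX := by
    obtain ⟨a, b, d, hT⟩ := hD.localization i j h ht
    exact Th.cone _ hT hZ hX
  closed i j h ht hX hU := by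
    obtain ⟨a, b, d, hT⟩ := hD.localization i j h ht
    exact Th.unshift _ (Th.cone _ (rot_of_distTriang _ hT) hX hU)
  space n := by
    have h1 : Th D (Generators D N Y) (D.Mc (aff k k)) := gen_aff k (by
      rw [ringKrullDim_eq_zero_of_field]
      exact_mod_cast Nat.zero_le N)
    have h2 := hD.bundle k (n + 1) (f1 k n) (aff k k) (𝟙 _) inferInstance (range_id n)
    have h3 : Th D (Generators D N Y) (D.Mc (aff k (Jou (f1 k n)))) :=
      (Th.iso_iff h2).mpr ((Th.tw_iff _ _).mpr h1)
    exact Th.iso (hD.iso (ft_aff True) ⟨(affIso (jouOne k n)).symm⟩) h3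
  jouanolou A _ _ _ m f U j hj hr h :=
    (Th.tw_iff _ _).mp ((Th.iso_iff (hD.bundle A m f U j hj hr)).mp h)
  torus A _ _ _ h := by
    obtain ⟨s, r, hs⟩ := hD.torus A
    exact Th.untwist _ (Th.factor _ _ s r hs h)
  bundle A _ _ _ m f U j hj hr h :=
    (Th.iso_iff (hD.bundle A m f U j hj hr)).mpr ((Th.tw_iff _ _).mpr h)

theorem posN_s : PosN True (fun X : Sch k => Th D (Generators D N Y) (D.Mc X)) N := by
  have h := pos_of_bnd (bnd_s (N := N) (Y := Y) hD) fun A _ _ _ => by
    refine gen_aff A ?_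
    refine (dim_integral (A := k) A).trans ?_
    rw [ringKrullDim_eq_zero_of_field]
    exact_mod_cast Nat.zero_le N
  exact { toPos := h, dim := fun A _ _ _ hA => gen_aff A hA }

theorem pasted_th (X : Sch k) (hX : Pasted N Y X) : Th D (Generators D N Y) (D.Mc X) := by
  have hP := bnd_s (N := N) (Y := Y) hD
  have hp : PosN True (fun X : Sch k => Th D (Generators D N Y) (D.Mc X)) N := posN_s hD
  induction hX with
  | system σ q G he => exact few_zeros hP hp G he
  | small X hX hd => exact gen_dim X hX hd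
  | given X hX => exact Th.gen _ ⟨X, Or.inr hX, rfl⟩
  | iso X Y hX e _ h => exact hP.iso hX e h
  | total i j hX ht _ _ h1 h2 => exact hP.total i j hX ht h1 h2
  | opened i j hX ht _ _ h1 h2 => exact hP.opened i j hX ht h1 h2
  | closed i j hX ht _ _ h1 h2 => exact hP.closed i j hX ht h1 h2
  | covering A B d b _ h =>
    obtain ⟨s, r, hs⟩ := hD.transfer A B d b
    exact Th.factor _ _ s r hs h

theorem pasted_summand (hY : ∀ X, Y X → SmoothProper X)
    (hs : ∀ X, SmoothProper X → topologicalKrullDim X.left ≤ N → Y X) (X : Sch k)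
    (hX : Pasted N Y X) (hp : SmoothProper X) : Summand D Y (D.M X) :=
  hD.chow N Y hY hs X hp (Th.iso ((hD.proper X hp.1 hp.2.2).map Iso.symm) (pasted_th hD X hX))

end Pool.Agent.U672.AJ
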