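import Pool.Agent.U672.AJ.Main

/-!
# Abel-Jacobi maps
-/

set_option autoImplicit false
set_option linter.unusedSectionVars false

open CategoryTheory MonoidalCategory AlgebraicGeometry Opposite Pool.Agent.TH137.DG
  Pool.Agent.Y116.UV Pool.Agent.Z125.UN Pool.Agent.U672.SF

namespace Pool.Agent.U672.AJ

universe v u w

variable {k : Type} [Field k] {C : Type u} [Category.{v} C] [MonoidalCategory C]
  [SymmetricCategory C] [Preadditive C] [Linear ℚ C] [Limits.HasZeroObject C] [HasShift C ℤ]
  [∀ n : ℤ, (shiftFunctor C n).Additive] [Pretriangulated C]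

/-- An Abel-Jacobi map for the objects of the category of geometric motives: contravariant functors `CH m` and
`J m` to the rational vector spaces and natural maps `aj m : CH m A ⟶ J m A`, such that `CH m` is additive
and the Tate twist `L ⊗ A = A (1)[2]` shifts the degree `m` by one, compatibly with the maps. For the
motive `M X` of a smooth proper scheme `X` the space `CH m (M X)` is the group of homologically trivial
cycles of codimension `m` on `X` modulo rational equivalence, tensored with `ℚ`. -/
structure AbelJacobi (D : Motives k C) where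
  CH : ℤ → Cᵒᵖ ⥤ ModuleCat.{w} ℚ
  J : ℤ → Cᵒᵖ ⥤ ModuleCat.{w} ℚ
  aj : ∀ m, CH m ⟶ J m
  additive : ∀ m, (CH m).Additive
  twistCH : ∀ m, (tensorLeft D.L).op ⋙ CH (m + 1) ≅ CH m
  twistJ : ∀ m, (tensorLeft D.L).op ⋙ J (m + 1) ≅ J m
  comm : ∀ (m : ℤ) (A : C) (z : (CH (m + 1)).obj (op (D.L ⊗ A))),
    ((twistJ m).hom.app (op A)).hom (((aj (m + 1)).app (op (D.L ⊗ A))).hom z) =
      ((aj m).app (op A)).hom (((twistCH m).hom.app (op A)).hom z)

variable {D : Motives k C}

/-- The maps `aj m` are injective for the object `A`, for all `m`. For the motive `A = M X` of a smooth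
proper scheme: the Abel-Jacobi maps of `X` are injective in all codimensions. -/
def IsInjective (S : AbelJacobi.{v, u, w} D) (A : C) : Prop :=
  ∀ m : ℤ, Function.Injective ((S.aj m).app (op A)).hom

variable {S : AbelJacobi.{v, u, w} D}

lemma inj_iff {A : C} : IsInjective S A ↔
    ∀ (m : ℤ) (z : (S.CH m).obj (op A)), ((S.aj m).app (op A)).hom z = 0 → z = 0 :=
  forall_congr' fun m => injective_iff_map_eq_zero _

lemma nat_apply {A B : C} (f : A ⟶ B) (m : ℤ) (z : (S.CH m).obj (op B)) :
    ((S.aj m).app (op A)).hom (((S.CH m).map f.op).hom z) =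
      ((S.J m).map f.op).hom (((S.aj m).app (op B)).hom z) := by
  have h := (S.aj m).naturality f.op
  exact congrArg (fun t => t.hom z) h

lemma inj_factor (A B T : C) (i₁ : A ⟶ T) (i₂ : B ⟶ T) (p₁ : T ⟶ A) (p₂ : T ⟶ B)
    (h : p₁ ≫ i₁ + p₂ ≫ i₂ = 𝟙 T) (hA : IsInjective S A) (hB : IsInjective S B) :
    IsInjective S T := by
  rw [inj_iff] at *
  intro m z hz
  have := S.additive m
  have h1 : ((S.CH m).map i₁.op).hom z = 0 := hA m _ (by rw [nat_apply, hz, map_zero])
  have h2 : ((S.CH m).map i₂.op).hom z = 0 := hB m _ (by rw [nat_apply, hz, map_zero])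
  have h3 : (S.CH m).map (𝟙 (op T)) = (S.CH m).map i₁.op ≫ (S.CH m).map p₁.op +
      (S.CH m).map i₂.op ≫ (S.CH m).map p₂.op := by
    rw [← Functor.map_comp, ← Functor.map_comp, ← Functor.map_add, ← op_comp, ← op_comp,
      ← op_add, h, op_id]
  have h4 : z = ((S.CH m).map (𝟙 (op T))).hom z := by
    rw [CategoryTheory.Functor.map_id]
    rfl
  rw [h4, h3]
  change ((S.CH m).map p₁.op).hom (((S.CH m).map i₁.op).hom z) +
    ((S.CH m).map p₂.op).hom (((S.CH m).map i₂.op).hom z) = 0
  rw [h1, h2, map_zero, map_zero, add_zero]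

lemma inj_twist (A : C) : IsInjective S (D.L ⊗ A) ↔ IsInjective S A := by
  have key : ∀ m : ℤ, Function.Injective ((S.aj (m + 1)).app (op (D.L ⊗ A))).hom ↔
      Function.Injective ((S.aj m).app (op A)).hom := by
    intro m
    have e1 : Function.Bijective ((S.twistCH m).hom.app (op A)).hom :=
      (ConcreteCategory.bijective_of_isIso ((S.twistCH m).hom.app (op A)))
    have e2 : Function.Bijective ((S.twistJ m).hom.app (op A)).hom :=
      (ConcreteCategory.bijective_of_isIso ((S.twistJ m).hom.app (op A)))
    have e3 : (fun z => ((S.twistJ m).hom.app (op A)).hom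
        (((S.aj (m + 1)).app (op (D.L ⊗ A))).hom z)) =
        fun z => ((S.aj m).app (op A)).hom (((S.twistCH m).hom.app (op A)).hom z) :=
      funext (S.comm m A)
    constructor
    · intro h
      have h1 : Function.Injective fun z => ((S.aj m).app (op A)).hom
          (((S.twistCH m).hom.app (op A)).hom z) := by
        rw [← e3]
        exact e2.1.comp h
      exact (Function.Injective.of_comp_iff' _ e1).mp h1
    · intro h
      have h1 : Function.Injective fun z => ((S.twistJ m).hom.app (op A)).hom
          (((S.aj (m + 1)).app (op (D.L ⊗ A))).hom z) := by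
        rw [e3]
        exact h.comp e1.1
      exact h1.of_comp
  constructor
  · intro h m
    exact (key m).mp (h (m + 1))
  · intro h m
    obtain ⟨m, rfl⟩ : ∃ m', m = m' + 1 := ⟨m - 1, by ring⟩
    exact (key m).mpr (h m)

theorem summand_inj {Y : Sch k → Prop} (hY : ∀ X, Y X → IsInjective S (D.M X)) {A : C}
    (hA : Summand D Y A) : IsInjective S A := by
  induction hA with
  | gen X hX => exact hY X hX
  | factor A B T i₁ i₂ p₁ p₂ h _ _ h1 h2 => exact inj_factor A B T i₁ i₂ p₁ p₂ h h1 h2
  | twist A _ h => exact (inj_twist A).mpr h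
  | untwist A _ h => exact (inj_twist A).mp h

end Pool.Agent.U672.AJ
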